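import Pool.Agent.helper15.LC.Spec

/-!
# Row lc:SEC (MP_7c3fb3_pr): the second moment of the block magnetisation
-/

set_option autoImplicit false

open Finset Filter Topology

namespace CO

open CU

section gen
variable {V : Type} [Fintype V] [DecidableEq V]

theorem SEC_pl (A : Finset V) : (pl A).Nonempty :=
  ⟨fun _ => true, by unfold pl; rw [mem_filter]; exact ⟨mem_univ _, fun _ _ => rfl⟩⟩

theorem SEC_Z (K : V → V → ℝ) (g : V → ℝ) (A : Finset V) : 0 < ∑ σ ∈ pl A, Real.exp (CWM.HH K g σ) :=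
  sum_pos (fun _ _ => Real.exp_pos _) (SEC_pl A)

theorem SEC_mono (K : V → V → ℝ) (g : V → ℝ) (A : Finset V) (f f' : (V → Bool) → ℝ) (h : ∀ σ, f σ ≤ f' σ) :
    exA K g A f ≤ exA K g A f' := by
  unfold exA
  exact div_le_div_of_nonneg_right (sum_le_sum fun σ _ => mul_le_mul_of_nonneg_left (h σ) (Real.exp_pos _).le)
    (SEC_Z K g A).le

theorem SEC_const (K : V → V → ℝ) (g : V → ℝ) (A : Finset V) (c : ℝ) : exA K g A (fun _ => c) = c := by
  unfold exA
  rw [← sum_mul, mul_comm, mul_div_assoc, div_self (SEC_Z K g A).ne', mul_one]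

theorem SEC_sum (K : V → V → ℝ) (g : V → ℝ) (A : Finset V) {ι : Type} (s : Finset ι) (f : ι → (V → Bool) → ℝ) :
    exA K g A (fun σ => ∑ i ∈ s, f i σ) = ∑ i ∈ s, exA K g A (f i) := by
  unfold exA
  rw [← sum_div, sum_comm]
  congr 1
  exact sum_congr rfl fun σ _ => mul_sum _ _ _

theorem SEC_mul (K : V → V → ℝ) (g : V → ℝ) (A : Finset V) (c : ℝ) (f : (V → Bool) → ℝ) :
    exA K g A (fun σ => c * f σ) = c * exA K g A f := by
  unfold exA
  rw [← mul_div_assoc, mul_sum]
  congr 1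
  exact sum_congr rfl fun σ _ => by ring

theorem SEC_sg (b : Bool) : |sg b| ≤ 1 := by
  unfold sg
  cases b <;> simp

theorem SEC_sg2 (b : Bool) : sg b * sg b = 1 := by
  unfold sg
  cases b <;> simp

end gen

section tor
variable {d n : ℕ}

theorem SEC_KT_nonneg (b : ℝ) (hb : 0 ≤ b) (x y : Site d n) : 0 ≤ KT b (fun _ => 0) x y := by
  unfold KT
  have hs : (0 : ℝ) ≤ ∑ i : Fin d, if y = x + ev i then (1 : ℝ) else 0 := by
    refine Finset.sum_nonneg fun i _ => ?_
    split_ifs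
    · exact zero_le_one
    · exact le_refl 0
  have := mul_nonneg hb hs
  linarith

theorem SEC_KT_mono (b b' : ℝ) (hb : b ≤ b') (x y : Site d n) : KT b (fun _ => 0) x y ≤ KT b' (fun _ => 0) x y := by
  unfold KT
  have hs : (0 : ℝ) ≤ ∑ i : Fin d, if y = x + ev i then (1 : ℝ) else 0 := by
    refine Finset.sum_nonneg fun i _ => ?_
    split_ifs
    · exact zero_le_one
    · exact le_refl 0
  have := mul_le_mul_of_nonneg_right hb hs
  linarith

theorem SEC_KT_trans (b : ℝ) (w x y : Site d n) : KT b (fun _ => 0) (x + w) (y + w) = KT b (fun _ => 0) x y := by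
  unfold KT
  congr 1
  congr 1
  refine sum_congr rfl fun i _ => ?_
  have : y + w = x + w + ev i ↔ y = x + ev i := by
    constructor
    · intro h
      have h2 : y + w = (x + ev i) + w := by rw [h]; ring
      exact add_right_cancel h2
    · intro h
      rw [h]
      ring
  simp only [this]

variable [NeZero n]

theorem SEC_box_trans (l : ℕ) (w x : Site d n) : x + w ∈ Box l w ↔ x ∈ Box l (0 : Site d n) := by
  unfold Box Near
  rw [mem_filter, mem_filter]
  simp

theorem SEC_box_mono {l l' : ℕ} (h : l ≤ l') (v : Site d n) : Box l v ⊆ Box l' v := by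
  intro x hx
  unfold Box Near at *
  rw [mem_filter] at *
  exact ⟨mem_univ _, fun k => (hx.2 k).trans h⟩

/-- the box around a point of a box -/
theorem SEC_box_sub {l a c : ℕ} (h : l + a ≤ c) (w : Site d n) (hw : w ∈ Box a (0 : Site d n)) :
    Box l w ⊆ Box c (0 : Site d n) := by
  intro x hx
  unfold Box Near at *
  rw [mem_filter] at *
  refine ⟨mem_univ _, fun k => ?_⟩
  have h1 := hx.2 k
  have h2 := hw.2 k
  have h3 : x k - (0 : Site d n) k = (x k - w k) + (w k - (0 : Site d n) k) := by ring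
  have h4 := ZMod.natAbs_valMinAbs_add_le (x k - w k) (w k - (0 : Site d n) k)
  have h5 := Int.natAbs_add_le (x k - w k).valMinAbs (w k - (0 : Site d n) k).valMinAbs
  rw [h3]
  omega

/-- points of small norm -/
theorem SEC_nrm {r : ℕ} (z u : Site d n) (hz : z ∈ Box r (0 : Site d n)) (hu : nrm u ≤ 2 * d * r) :
    z + u ∈ Box ((2 * d + 1) * r) (0 : Site d n) := by
  unfold Box Near at *
  rw [mem_filter] at *
  refine ⟨mem_univ _, fun k => ?_⟩
  have h2 := hz.2 k
  have h1 : (((u k).valMinAbs.natAbs : ℕ) : ℝ) ≤ nrm u := by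
    unfold nrm
    exact single_le_sum (f := fun k => (((u k).valMinAbs.natAbs : ℕ) : ℝ)) (fun _ _ => Nat.cast_nonneg _) (mem_univ k)
  have h3 : (u k).valMinAbs.natAbs ≤ 2 * d * r := by
    have h4 := h1.trans hu
    exact_mod_cast h4
  have h5 : (z + u) k - (0 : Site d n) k = (z k - (0 : Site d n) k) + u k := by
    rw [Pi.add_apply]
    ring
  have h6 := ZMod.natAbs_valMinAbs_add_le (z k - (0 : Site d n) k) (u k)
  have h7 := Int.natAbs_add_le (z k - (0 : Site d n) k).valMinAbs (u k).valMinAbs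
  rw [h5]
  have h8 : (2 * d + 1) * r = 2 * d * r + r := by ring
  omega

theorem SEC_zero_mem (r : ℕ) : (0 : Site d n) ∈ Box r (0 : Site d n) := by
  unfold Box Near
  rw [mem_filter]
  refine ⟨mem_univ _, fun k => ?_⟩
  simp

end tor

theorem SEC (hENE : ENE_stmt) (hPIN : PIN_stmt) (hRAW : RAW_stmt) (hPLB : PLB_stmt) (hGKW : GKW_stmt) (hTRX : TRX_stmt) (hCBX : CBX_stmt) (hMSP : MSP_stmt) : SEC_stmt := by
  classical
  intro d r b b₁ κ hd hb hb1 hbb hms hκ
  obtain ⟨m, hm⟩ : ∃ m : ℝ, m = ms d b := ⟨_, rfl⟩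
  rw [← hm] at hms
  have hm1 : m ≤ 1 := by
    obtain ⟨-, h1, h2⟩ := (hMSP d).1 b 0 hb.le
    rw [hm]
    exact h1.trans h2
  obtain ⟨κ', hκ'⟩ : ∃ κ' : ℝ, κ' = κ * m ^ 4 / (2 * d * r + 1) := ⟨_, rfl⟩
  have hκ'0 : 0 < κ' := by rw [hκ']; positivity
  obtain ⟨l, hl⟩ := hENE d b κ' hd hb hκ'0
  refine ⟨l + (2 * d + 1) * r + 2, l + (2 * d + 1) * r + 2, ?_⟩
  intro M hM
  filter_upwards [hl, eventually_ge_atTop (2 * (M + (2 * d + 1) * r))] with n h1 h2
  obtain ⟨K1, hK1⟩ : ∃ K1 : Site d (n + 3) → Site d (n + 3) → ℝ, K1 = KT b fun _ => 0 := ⟨_, rfl⟩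
  obtain ⟨K2, hK2⟩ : ∃ K2 : Site d (n + 3) → Site d (n + 3) → ℝ,
    K2 = KW b b₁ (Box (l + (2 * d + 1) * r + 2) (0 : Site d (n + 3))) := ⟨_, rfl⟩
  obtain ⟨A, hA⟩ : ∃ A : Finset (Site d (n + 3)), A = univ \ Box M 0 := ⟨_, rfl⟩
  have hK1n : ∀ x y, 0 ≤ K1 x y := fun x y => by rw [hK1]; exact SEC_KT_nonneg b hb.le x y
  have hK2n : ∀ x y, 0 ≤ K2 x y := fun x y => by
    rw [hK2]
    unfold KW
    split_ifs
    · exact SEC_KT_nonneg b hb.le x y
    · exact SEC_KT_nonneg b₁ hb1 x y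
  have hK21 : ∀ x y, K2 x y ≤ K1 x y := fun x y => by
    rw [hK2, hK1]
    unfold KW
    split_ifs
    · exact le_refl _
    · exact SEC_KT_mono b₁ b hbb x y
  have hKabs : ∀ x y, |K2 x y| ≤ K1 x y := fun x y => by
    rw [abs_of_nonneg (hK2n x y)]
    exact hK21 x y
  have hKabs1 : ∀ x y, |K1 x y| ≤ K1 x y := fun x y => by rw [abs_of_nonneg (hK1n x y)]
  have hg : ∀ x : Site d (n + 3), |(fun _ => (0 : ℝ)) x| ≤ (fun _ => (0 : ℝ)) x := fun x => by simp
  have hP := hPIN (Site d (n + 3)) K1 K2 (fun _ => 0) (fun _ => 0) A hKabs hg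
  have hP1 := hPIN (Site d (n + 3)) K1 K1 (fun _ => 0) (fun _ => 0) A hKabs1 hg
  -- the nearest neighbour terms
  have hT : ∀ i : Fin d, exA (KT b fun _ => 0) (fun _ => 0) (univ \ Box l (0 : Site d (n + 3)))
        (fun σ => sg (σ 0) * sg (σ (ev i))) -
      ex (KF b (Box l (0 : Site d (n + 3)))) (fun _ => 0) (fun σ => sg (σ 0) * sg (σ (ev i))) ≤ κ' := by
    intro i
    refine le_trans ?_ h1
    unfold uP uF
    rw [← sum_sub_distrib]
    refine single_le_sum (f := fun i : Fin d => exA (KT b fun _ => 0) (fun _ => 0) (univ \ Box l (0 : Site d (n + 3)))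
        (fun σ => sg (σ 0) * sg (σ (ev i))) -
      ex (KF b (Box l (0 : Site d (n + 3)))) (fun _ => 0) (fun σ => sg (σ 0) * sg (σ (ev i)))) (fun j _ => ?_) (mem_univ i)
    have e1 := hGKW (Site d (n + 3)) (KF b (Box l (0 : Site d (n + 3)))) (KT b fun _ => 0) (fun _ => 0) (fun _ => 0)
      (fun x y => by
        unfold KF
        split_ifs
        · exact SEC_KT_nonneg b hb.le x y
        · exact le_refl 0) (fun _ => le_refl 0)
      (fun x y => by
        unfold KF
        split_ifs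
        · exact le_refl _
        · exact SEC_KT_nonneg b hb.le x y) (fun _ => le_refl 0) ∅ (univ \ Box l (0 : Site d (n + 3))) (empty_subset _)
      0 (ev j)
    have e2 := e1.2.1
    rw [e1.2.2.2.2 (fun σ => sg (σ 0) * sg (σ (ev j)))] at e2
    exact sub_nonneg.2 e2
  have hnn : ∀ w ∈ Box ((2 * d + 1) * r) (0 : Site d (n + 3)), ∀ i : Fin d,
      exA K1 (fun _ => 0) A (fun σ => sg (σ w) * sg (σ (w + ev i))) -
        exA K2 (fun _ => 0) A (fun σ => sg (σ w) * sg (σ (w + ev i))) ≤ κ' := by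
    intro w hw i
    have hsub : Box l w ⊆ Box M (0 : Site d (n + 3)) := SEC_box_sub (by omega) w hw
    have hsub2 : Box l w ⊆ Box (l + (2 * d + 1) * r + 2) (0 : Site d (n + 3)) := SEC_box_sub (by omega) w hw
    have e1 : exA K1 (fun _ => 0) A (fun σ => sg (σ w) * sg (σ (w + ev i))) ≤
        exA (KT b fun _ => 0) (fun _ => 0) (univ \ Box l (0 : Site d (n + 3))) (fun σ => sg (σ 0) * sg (σ (ev i))) := by
      have f1 := (hGKW (Site d (n + 3)) K1 K1 (fun _ => 0) (fun _ => 0) hK1n (fun _ => le_refl 0) (fun _ _ => le_refl _)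
        (fun _ => le_refl 0) A (univ \ Box l w) (by rw [hA]; exact sdiff_subset_sdiff (subset_refl _) hsub) w (w + ev i)).2.1
      have f2 := (hTRX d (n + 3) w (KT b fun _ => 0) K1 0 (univ \ Box l (0 : Site d (n + 3))) (univ \ Box l w)
        (fun σ => sg (σ w) * sg (σ (w + ev i))) (fun x y => by rw [hK1]; exact SEC_KT_trans b w x y)
        (fun x => by
          rw [Finset.mem_sdiff, Finset.mem_sdiff, SEC_box_trans]
          simp)).1
      rw [f2] at f1
      refine f1.trans (le_of_eq ?_)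
      congr 1
      funext σ
      show sg (σ (w - w)) * sg (σ (w + ev i - w)) = sg (σ 0) * sg (σ (ev i))
      rw [sub_self, add_sub_cancel_left]
    have e2 : ex (KF b (Box l (0 : Site d (n + 3)))) (fun _ => 0) (fun σ => sg (σ 0) * sg (σ (ev i))) ≤
        exA K2 (fun _ => 0) A (fun σ => sg (σ w) * sg (σ (w + ev i))) := by
      have f1 := hGKW (Site d (n + 3)) (KF b (Box l w)) K2 (fun _ => 0) (fun _ => 0)
        (fun x y => by
          unfold KF
          split_ifs
          · exact SEC_KT_nonneg b hb.le x y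
          · exact le_refl 0) (fun _ => le_refl 0)
        (fun x y => by
          by_cases hxy : x ∈ Box l w ∧ y ∈ Box l w
          · have : x ∈ Box (l + (2 * d + 1) * r + 2) (0 : Site d (n + 3)) ∧
                y ∈ Box (l + (2 * d + 1) * r + 2) (0 : Site d (n + 3)) := ⟨hsub2 hxy.1, hsub2 hxy.2⟩
            rw [hK2]
            unfold KF KW
            rw [if_pos hxy, if_pos this]
          · unfold KF
            rw [if_neg hxy]
            exact hK2n x y) (fun _ => le_refl 0) ∅ A (empty_subset _) w (w + ev i)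
      have f3 := f1.2.1
      rw [f1.2.2.2.2 (fun σ => sg (σ w) * sg (σ (w + ev i)))] at f3
      have f2 := (hTRX d (n + 3) w (KF b (Box l (0 : Site d (n + 3)))) (KF b (Box l w)) 0 ∅ ∅
        (fun σ => sg (σ w) * sg (σ (w + ev i))) (fun x y => by
          unfold KF
          simp only [SEC_box_trans, SEC_KT_trans]) (fun x => by simp)).2
      rw [f2] at f3
      refine le_trans (le_of_eq ?_) f3
      congr 1
      funext σ
      show sg (σ 0) * sg (σ (ev i)) = sg (σ (w - w)) * sg (σ (w + ev i - w))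
      rw [sub_self, add_sub_cancel_left]
    have := hT i
    linarith
  -- pairs in the box
  have hpair : ∀ z ∈ Box r (0 : Site d (n + 3)), ∀ y ∈ Box r (0 : Site d (n + 3)),
      m ^ 2 - κ ≤ exA K2 (fun _ => 0) A (fun σ => sg (σ z) * sg (σ y)) := by
    intro z hz y hy
    have hzb : z ∈ Box ((2 * d + 1) * r) (0 : Site d (n + 3)) :=
      SEC_box_mono (Nat.le_mul_of_pos_left r (by omega)) _ hz
    have hone : ∀ K : Site d (n + 3) → Site d (n + 3) → ℝ,
        exA K (fun _ => 0) A (fun σ => sg (σ z) * sg (σ (z + 0))) = 1 := by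
      intro K
      have e1 : (fun σ : Conf d (n + 3) => sg (σ z) * sg (σ (z + 0))) = fun _ => 1 := by
        funext σ
        rw [add_zero, SEC_sg2]
      rw [e1, SEC_const]
    have hlow : ∀ u : Site d (n + 3), nrm u ≤ 2 * d * r →
        m ^ 2 ≤ exA K1 (fun _ => 0) A (fun σ => sg (σ z) * sg (σ (z + u))) := by
      intro u hu
      have e1 := hP1.2.1 z (z + u)
      have e2 : m ≤ exA K1 (fun _ => 0) A (fun σ => sg (σ z)) := by
        rw [hm, hK1, hA]
        exact hPLB d M ((2 * d + 1) * r) n b hb.le h2 z hzb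
      have e3 : m ≤ exA K1 (fun _ => 0) A (fun σ => sg (σ (z + u))) := by
        rw [hm, hK1, hA]
        exact hPLB d M ((2 * d + 1) * r) n b hb.le h2 (z + u) (SEC_nrm z u hz hu)
      nlinarith
    have hyz : nrm (y - z) ≤ 2 * d * r := (hCBX d (n + 3) r).2.1 z hz y hy
    have hR := hRAW d (n + 3) (by omega) (fun u => exA K1 (fun _ => 0) A (fun σ => sg (σ z) * sg (σ (z + u))))
      (fun u => exA K2 (fun _ => 0) A (fun σ => sg (σ z) * sg (σ (z + u)))) κ' m (2 * d * r) hms hκ'0.le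
      (hone K1) (hone K2) hlow (by
        intro u i hu hui
        have e1 := hP.2.2 (z + u) (z + u + ev i) z
        have e2 := hnn (z + u) (SEC_nrm z u hz hu) i
        have e3 : z + (u + ev i) = z + u + ev i := by rw [add_assoc]
        show |exA K1 (fun _ => 0) A (fun σ => sg (σ z) * sg (σ (z + u))) *
            exA K2 (fun _ => 0) A (fun σ => sg (σ z) * sg (σ (z + (u + ev i)))) -
          exA K2 (fun _ => 0) A (fun σ => sg (σ z) * sg (σ (z + u))) *
            exA K1 (fun _ => 0) A (fun σ => sg (σ z) * sg (σ (z + (u + ev i))))| ≤ κ'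
        rw [e3]
        exact e1.trans e2) (y - z) hyz
    have hc1 : exA K1 (fun _ => 0) A (fun σ => sg (σ z) * sg (σ (z + (y - z)))) ≤ 1 := by
      rw [← SEC_const K1 (fun _ => 0) A 1]
      refine SEC_mono _ _ _ _ _ fun σ => ?_
      have e1 := SEC_sg (σ z)
      have e2 := SEC_sg (σ (z + (y - z)))
      calc sg (σ z) * sg (σ (z + (y - z))) ≤ |sg (σ z) * sg (σ (z + (y - z)))| := le_abs_self _
        _ = |sg (σ z)| * |sg (σ (z + (y - z)))| := abs_mul _ _
        _ ≤ 1 * 1 := mul_le_mul e1 e2 (abs_nonneg _) zero_le_one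
        _ = 1 := one_mul 1
    have hlow' := hlow (y - z) hyz
    have hn0 : 0 ≤ nrm (y - z) := (hCBX d (n + 3) r).2.2.2 _
    have ht : nrm (y - z) * κ' / m ^ 4 ≤ κ := by
      rw [div_le_iff₀ (by positivity), hκ']
      have e1 : nrm (y - z) * (κ * m ^ 4 / (2 * d * r + 1)) ≤ (2 * d * r) * (κ * m ^ 4 / (2 * d * r + 1)) :=
        mul_le_mul_of_nonneg_right hyz (by positivity)
      have e2 : (2 * (d : ℝ) * r) * (κ * m ^ 4 / (2 * d * r + 1)) ≤ κ * m ^ 4 := by
        rw [← mul_div_assoc, div_le_iff₀ (by positivity)]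
        have : 0 ≤ κ * m ^ 4 := by positivity
        nlinarith
      exact e1.trans e2
    have ht0 : 0 ≤ nrm (y - z) * κ' / m ^ 4 := by positivity
    have e4 : z + (y - z) = y := by ring
    have hR' : exA K1 (fun _ => 0) A (fun σ => sg (σ z) * sg (σ (z + (y - z)))) * (1 - nrm (y - z) * κ' / m ^ 4) ≤
        exA K2 (fun _ => 0) A (fun σ => sg (σ z) * sg (σ (z + (y - z)))) := hR
    rw [e4] at hR' hc1 hlow'
    nlinarith
  -- average
  obtain ⟨B, hB⟩ : ∃ B : Finset (Site d (n + 3)), B = Box r 0 := ⟨_, rfl⟩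
  have hBc : (0 : ℝ) < B.card := by
    have : 0 < B.card := card_pos.2 ⟨0, by rw [hB]; exact SEC_zero_mem r⟩
    exact_mod_cast this
  have hfin : exA K2 (fun _ => 0) A (fun σ => mB r σ ^ 2) =
      ((B.card : ℝ) ^ 2)⁻¹ * ∑ z ∈ B, ∑ y ∈ B, exA K2 (fun _ => 0) A (fun σ => sg (σ z) * sg (σ y)) := by
    have e1 : (fun σ : Conf d (n + 3) => mB r σ ^ 2) =
        fun σ => ((B.card : ℝ) ^ 2)⁻¹ * ∑ z ∈ B, ∑ y ∈ B, sg (σ z) * sg (σ y) := by
      funext σ
      unfold mB
      rw [← hB, div_pow, sq (∑ x ∈ B, sg (σ x)), sum_mul_sum, div_eq_inv_mul]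
    rw [e1, SEC_mul, SEC_sum]
    congr 1
    refine sum_congr rfl fun z _ => ?_
    rw [SEC_sum]
  rw [← hm, ← hK2, ← hA, hfin]
  have hge : (B.card : ℝ) ^ 2 * (m ^ 2 - κ) ≤ ∑ z ∈ B, ∑ y ∈ B, exA K2 (fun _ => 0) A (fun σ => sg (σ z) * sg (σ y)) := by
    calc (B.card : ℝ) ^ 2 * (m ^ 2 - κ) = ∑ _z ∈ B, ∑ _y ∈ B, (m ^ 2 - κ) := by
          rw [sum_const, sum_const, nsmul_eq_mul, nsmul_eq_mul]
          ring
      _ ≤ ∑ z ∈ B, ∑ y ∈ B, exA K2 (fun _ => 0) A (fun σ => sg (σ z) * sg (σ y)) :=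
          sum_le_sum fun z hz => sum_le_sum fun y hy => hpair z (by rw [← hB]; exact hz) y (by rw [← hB]; exact hy)
  rw [← div_eq_inv_mul, le_div_iff₀ (by positivity)]
  linarith

end CO
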